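import Mathlib
import Pool.Agent.TH163.ParaTop

set_option autoImplicit false

open scoped Pointwise

namespace Pool.Agent.Results.MP_3a0237_al.ZFCExample

open Pool.Agent.TH163.ParaTop in
/-- There is (in ZFC) an abelian paratopological group that is not a topological group and that is Hausdorff,
2-pseudocompact, pseudocompact and Baire. -/
theorem result :
    ∃ (G : Type) (_ : CommGroup G) (_ : TopologicalSpace G),
      ContinuousMul G ∧ ¬ IsTopologicalGroup G ∧ T2Space G ∧
      (∀ U : ℕ → Set G, (∀ n, IsOpen (U n)) → (∀ n, (U n).Nonempty) → (∀ n, U (n + 1) ⊆ U n) →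
        (⋂ n, closure ((U n)⁻¹)).Nonempty) ∧
      (∀ 𝒰 : Set (Set G), (∀ U ∈ 𝒰, IsOpen U ∧ U.Nonempty) →
        LocallyFinite (fun U : 𝒰 => (U : Set G)) → 𝒰.Finite) ∧
      (∀ D : ℕ → Set G, (∀ n, IsOpen (D n)) → (∀ n, Dense (D n)) → Dense (⋂ n, D n)) := by
  obtain ⟨ι, _, hι⟩ := exists_index
  refine ⟨Multiplicative (Sig ι), inferInstance, inferInstance, inferInstance, ?_, ?_, ?_, ?_, ?_⟩
  · intro h
    apply not_continuous_neg hι
    exact (continuous_inv : Continuous (fun x : Multiplicative (Sig ι) => x⁻¹))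
  · exact (inferInstance : T2Space (Sig ι))
  · intro U hU hne hanti
    exact two_pseudocompact hι (fun n => (U n : Set (Sig ι))) hU hne hanti
  · intro 𝒰 h𝒰 hlf
    exact pseudocompact hι (κ := 𝒰) (fun U => (U.1 : Set (Sig ι))) (fun U => (h𝒰 U.1 U.2).1)
      (fun U => (h𝒰 U.1 U.2).2) hlf
  · exact (baire hι).baire_property

end Pool.Agent.Results.MP_3a0237_al.ZFCExample
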